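import Pool.Agent.Helper116_EM.Joint

/-!
# Measures of algebraic independence and square roots (helper21)
-/

set_option autoImplicit false
set_option linter.unusedSectionVars false

open Finset

namespace Pool.Agent.Helper21_M

open Pool.Agent.Helper116_EM

/-- the scaling of the variables -/
noncomputable def scl {ι : Type*} (u : ι → ℤ) : MvPolynomial ι ℤ →ₐ[ℤ] MvPolynomial ι ℤ :=
  MvPolynomial.aeval (fun i => MvPolynomial.C (u i) * MvPolynomial.X i)

lemma scl_X {ι : Type*} (u : ι → ℤ) (i : ι) :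
    scl u (MvPolynomial.X i) = MvPolynomial.C (u i) * MvPolynomial.X i := by
  rw [scl, MvPolynomial.aeval_X]

lemma scl_scl {ι : Type*} (u w : ι → ℤ) (P : MvPolynomial ι ℤ) : scl u (scl w P) = scl (fun i => w i * u i) P := by
  have h : (scl u).comp (scl w) = scl (fun i => w i * u i) := by
    refine MvPolynomial.algHom_ext fun i => ?_
    rw [AlgHom.comp_apply, scl_X, scl_X, map_mul, scl_X, MvPolynomial.C_mul, mul_assoc]
    congr 1
    exact MvPolynomial.algHom_C _ _
  exact congrArg (fun F => F P) h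

lemma coeff_scl {ι : Type*} (u : ι → ℤ) (P : MvPolynomial ι ℤ) (s : ι →₀ ℕ) :
    MvPolynomial.coeff s (scl u P) = (s.prod fun i k => u i ^ k) * MvPolynomial.coeff s P := by
  classical
  induction P using MvPolynomial.induction_on' with
  | monomial r a =>
    have h1 : scl u (MvPolynomial.monomial r a) = MvPolynomial.monomial r ((r.prod fun i k => u i ^ k) * a) := by
      rw [scl, MvPolynomial.aeval_monomial]
      have h2 : (r.prod fun i k => (MvPolynomial.C (u i) * MvPolynomial.X i : MvPolynomial ι ℤ) ^ k) =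
          MvPolynomial.C (r.prod fun i k => u i ^ k) * MvPolynomial.monomial r 1 := by
        simp only [mul_pow]
        rw [Finsupp.prod_mul, MvPolynomial.monomial_eq, MvPolynomial.C_1, one_mul]
        congr 1
        rw [Finsupp.prod, Finsupp.prod, map_prod]
        refine Finset.prod_congr rfl fun i _ => ?_
        rw [map_pow]
      rw [h2, MvPolynomial.C_mul_monomial, mul_one]
      show MvPolynomial.C a * _ = _
      rw [MvPolynomial.C_mul_monomial, mul_comm]
    rw [h1, MvPolynomial.coeff_monomial, MvPolynomial.coeff_monomial]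
    split_ifs with h
    · rw [h]
    · rw [mul_zero]
  | add p q hp hq => rw [map_add, MvPolynomial.coeff_add, MvPolynomial.coeff_add, hp, hq]; ring

/-- signs -/
def sgn {ι : Type*} (ε : ι → Bool) (i : ι) : ℤ := if ε i then -1 else 1

lemma sgn_mul {ι : Type*} (ε δ : ι → Bool) (i : ι) : sgn ε i * sgn δ i = sgn (fun i => xor (ε i) (δ i)) i := by
  rcases h1 : ε i with _ | _ <;> rcases h2 : δ i with _ | _ <;> simp [sgn, h1, h2]

lemma scl_sgn_ne {ι : Type*} (ε : ι → Bool) {P : MvPolynomial ι ℤ} (hP : P ≠ 0) : scl (sgn ε) P ≠ 0 := by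
  intro h
  apply hP
  have h1 := scl_scl (sgn ε) (sgn ε) P
  have h2 : (fun i => sgn ε i * sgn ε i) = fun i => (1 : ℤ) := by
    funext i
    unfold sgn
    cases ε i <;> simp
  have h3 : scl (fun _ : ι => (1 : ℤ)) P = P := by
    unfold scl
    simp only [MvPolynomial.C_1, one_mul]
    exact MvPolynomial.aeval_X_left_apply P
  rw [h2, h3, h, map_zero] at h1
  exact h1.symm

/-- the product over all the signs -/
noncomputable def nrm {ι : Type*} [Fintype ι] [DecidableEq ι] (P : MvPolynomial ι ℤ) : MvPolynomial ι ℤ :=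
  ∏ ε : ι → Bool, scl (sgn ε) P

lemma scl_nrm {ι : Type*} [Fintype ι] [DecidableEq ι] (P : MvPolynomial ι ℤ) (δ : ι → Bool) :
    scl (sgn δ) (nrm P) = nrm P := by
  unfold nrm
  rw [map_prod]
  have hinv : Function.Involutive (fun ε : ι → Bool => fun i => xor (ε i) (δ i)) := by
    intro ε
    funext i
    simp
  have h1 : ∀ ε : ι → Bool, scl (sgn δ) (scl (sgn ε) P) = scl (sgn (hinv.toPerm _ ε)) P := by
    intro ε
    rw [scl_scl]
    congr 2
    funext i
    exact sgn_mul ε δ i
  simp only [h1]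
  exact Equiv.prod_comp (hinv.toPerm _) (fun ε => scl (sgn ε) P)

lemma nrm_even {ι : Type*} [Fintype ι] [DecidableEq ι] (P : MvPolynomial ι ℤ) (s : ι →₀ ℕ)
    (hs : MvPolynomial.coeff s (nrm P) ≠ 0) (i : ι) : Even (s i) := by
  by_contra ho
  rw [Nat.not_even_iff_odd] at ho
  apply hs
  have h1 := coeff_scl (sgn fun k => decide (k = i)) (nrm P) s
  rw [scl_nrm] at h1
  have h2 : (s.prod fun k n => sgn (fun k => decide (k = i)) k ^ n) = -1 := by
    rw [Finsupp.prod_eq_single i]
    · simp only [sgn, decide_true, if_true]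
      exact ho.neg_one_pow
    · intro k _ hk
      simp [sgn, hk]
    · intro _
      exact pow_zero _
  rw [h2] at h1
  linarith

/-- **Square roots.** -/
theorem MeasI_sqrt {ι : Type} [Fintype ι] {θ : ι → ℝ} (h : MeasI (fun j => θ j ^ 2)) : MeasI θ := by
  classical
  intro D
  obtain ⟨M, hM⟩ : ∃ M : ℕ, M = Fintype.card (ι → Bool) := ⟨_, rfl⟩
  have hM1 : 1 ≤ M := by rw [hM]; exact Fintype.card_pos
  obtain ⟨k, c, hc, hm⟩ := h (M * D)
  obtain ⟨L, hL⟩ : ∃ L : ℝ, L = ((D : ℝ) + 1) ^ (Fintype.card ι) := ⟨_, rfl⟩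
  obtain ⟨Z, hZ⟩ : ∃ Z : ℝ, Z = (((D : ℝ) + 1) ^ (Fintype.card ι) * (1 + ∑ i, |θ i|) ^ D) * L := ⟨_, rfl⟩
  have hD1 : (1 : ℝ) ≤ (D : ℝ) + 1 := by linarith [show (0 : ℝ) ≤ D by positivity]
  have hL1 : 1 ≤ L := by rw [hL]; exact one_le_pow₀ hD1
  have hsum : 0 ≤ ∑ i, |θ i| := Finset.sum_nonneg fun _ _ => abs_nonneg _
  have hZ1 : 1 ≤ Z := by
    rw [hZ]
    exact one_le_mul_of_one_le_of_one_le (one_le_mul_of_one_le_of_one_le (one_le_pow₀ hD1)
      (one_le_pow₀ (by linarith))) hL1
  refine ⟨M * k + (M - 1), c / ((L ^ M) ^ k * Z ^ (M - 1)), by positivity, ?_⟩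
  intro Q hQ hQD H hH hQH
  have hH0 : 0 < H := by linarith
  -- the conjugates
  have hml : ∀ ε : ι → Bool, ml (scl (sgn ε) Q) ≤ L * H := by
    intro ε
    have h1 := subst_len (f := (ml : MvPolynomial ι ℤ → ℝ)) isLen_ml ml_int
      (fun i => MvPolynomial.C (sgn ε i) * MvPolynomial.X i) 1 le_rfl (fun i => by
        refine (ml_mul _ _).trans ?_
        have h2 : ml (MvPolynomial.C (sgn ε i) : MvPolynomial ι ℤ) ≤ 1 := by
          have h3 := ml_int (τ := ι) (sgn ε i)
          have h4 : |((sgn ε i : ℤ) : ℝ)| ≤ 1 := by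
            unfold sgn
            cases ε i <;> simp
          have h5 : ((sgn ε i : ℤ) : MvPolynomial ι ℤ) = MvPolynomial.C (sgn ε i) := by
            exact (eq_intCast (MvPolynomial.C : ℤ →+* MvPolynomial ι ℤ) _).symm
          rw [h5] at h3
          exact h3.trans h4
        exact mul_le_one₀ h2 (ml_nonneg _) (ml_X i)) D Q hQD H hH0.le hQH
    rw [one_pow, mul_one, ← hL] at h1
    exact h1
  have htd : ∀ ε : ι → Bool, scl (sgn ε) Q ∈ tdF ι D := by
    intro ε
    have h1 := subst_filt (tdF ι) (tdF_one ι) (tdF_mul ι) (tdF_mono ι)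
      (fun i => MvPolynomial.C (sgn ε i) * MvPolynomial.X i) 1 (fun i => by
        show (MvPolynomial.C (sgn ε i) * MvPolynomial.X i : MvPolynomial ι ℤ).totalDegree ≤ 1
        refine (MvPolynomial.totalDegree_mul _ _).trans ?_
        rw [MvPolynomial.totalDegree_C, MvPolynomial.totalDegree_X]) D Q hQD
    rwa [mul_one] at h1
  have hval : ∀ ε : ι → Bool, |MvPolynomial.aeval θ (scl (sgn ε) Q)| ≤ Z * H := by
    intro ε
    have h1 := abs_aeval_le θ D (scl (sgn ε) Q) (htd ε) (L * H) (by positivity) (hml ε)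
    refine h1.trans (le_of_eq ?_)
    rw [hZ]; ring
  -- the norm
  have hn0 : nrm Q ≠ 0 := Finset.prod_ne_zero_iff.2 fun ε _ => scl_sgn_ne ε hQ
  have hnml : ml (nrm Q) ≤ (L * H) ^ M := by
    refine (isLen_ml.prod _ _).trans ?_
    refine (Finset.prod_le_prod (fun ε _ => ml_nonneg _) fun ε _ => hml ε).trans (le_of_eq ?_)
    rw [Finset.prod_const, Finset.card_univ, hM]
  have hntd : nrm Q ∈ tdF ι (M * D) := by
    have h1 : ∀ T : Finset (ι → Bool), ∏ ε ∈ T, scl (sgn ε) Q ∈ tdF ι (T.card * D) := by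
      intro T
      induction T using Finset.induction_on with
      | empty => simpa using tdF_one ι
      | insert ε T hε ih =>
        rw [Finset.prod_insert hε, Finset.card_insert_of_notMem hε, add_mul, one_mul, add_comm]
        exact tdF_mul ι _ _ _ _ (htd ε) ih
    have h2 := h1 Finset.univ
    rwa [Finset.card_univ, ← hM] at h2
  -- the polynomial in the squares
  let hf : (ι →₀ ℕ) → (ι →₀ ℕ) := fun s => s.mapRange (fun n => n / 2) rfl
  set R : MvPolynomial ι ℤ := ∑ s ∈ (nrm Q).support, MvPolynomial.monomial (hf s) (MvPolynomial.coeff s (nrm Q)) with hR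
  have hRml : ml R ≤ (L * H) ^ M := by
    refine le_trans ((ml_sum _ _).trans ?_) hnml
    rw [ml]
    exact Finset.sum_le_sum fun s _ => ml_monomial _ _
  have hRtd : R ∈ tdF ι (M * D) := by
    refine sum_mem fun s hs => ?_
    show (MvPolynomial.monomial (hf s) (MvPolynomial.coeff s (nrm Q))).totalDegree ≤ M * D
    refine (MvPolynomial.totalDegree_monomial_le _ _).trans ?_
    have h1 : (s.sum fun _ e => e) ≤ M * D := (MvPolynomial.le_totalDegree hs).trans hntd
    refine le_trans ?_ h1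
    rw [Finsupp.sum_fintype _ _ (fun _ => rfl), Finsupp.sum_fintype _ _ (fun _ => rfl)]
    refine Finset.sum_le_sum fun i _ => ?_
    show s i / 2 ≤ s i
    exact Nat.div_le_self _ _
  have hRev : ∀ {A : Type} [CommRing A] [Algebra ℤ A] (x : ι → A), MvPolynomial.aeval (fun i => x i ^ 2) R =
      MvPolynomial.aeval x (nrm Q) := by
    intro A _ _ x
    conv_rhs => rw [MvPolynomial.as_sum (nrm Q)]
    rw [hR, map_sum, map_sum]
    refine Finset.sum_congr rfl fun s hs => ?_
    rw [MvPolynomial.aeval_monomial, MvPolynomial.aeval_monomial]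
    congr 1
    rw [Finsupp.prod_fintype _ _ (fun i => pow_zero _), Finsupp.prod_fintype _ _ (fun i => pow_zero _)]
    refine Finset.prod_congr rfl fun i _ => ?_
    show (x i ^ 2) ^ (s i / 2) = x i ^ s i
    rw [← pow_mul, Nat.mul_div_cancel' (nrm_even Q s (MvPolynomial.mem_support_iff.1 hs) i).two_dvd]
  have hR0 : R ≠ 0 := by
    intro h0
    have h1 := hRev (A := MvPolynomial ι ℤ) MvPolynomial.X
    rw [h0, map_zero, MvPolynomial.aeval_X_left_apply] at h1
    exact hn0 h1.symm
  have hLH : (1 : ℝ) ≤ (L * H) ^ M := one_le_pow₀ (one_le_mul_of_one_le_of_one_le hL1 hH)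
  have key := hm R hR0 hRtd ((L * H) ^ M) hLH (fun s => (coeff_le_ml R s).trans hRml)
  rw [hRev θ] at key
  -- the value of the norm
  have hsplit : |MvPolynomial.aeval θ (nrm Q)| ≤ |MvPolynomial.aeval θ Q| * (Z * H) ^ (M - 1) := by
    have h1 : nrm Q = scl (sgn fun _ => false) Q * ∏ ε ∈ Finset.univ.erase (fun _ => false), scl (sgn ε) Q := by
      unfold nrm
      exact (Finset.mul_prod_erase Finset.univ (fun ε => scl (sgn ε) Q) (Finset.mem_univ _)).symm
    have h2 : scl (sgn fun _ : ι => false) Q = Q := by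
      have h3 : (sgn fun _ : ι => false) = fun _ => (1 : ℤ) := by
        funext i
        simp [sgn]
      rw [h3]
      unfold scl
      simp only [MvPolynomial.C_1, one_mul]
      exact MvPolynomial.aeval_X_left_apply Q
    rw [h1, h2, map_mul, abs_mul]
    refine mul_le_mul_of_nonneg_left ?_ (abs_nonneg _)
    rw [map_prod, Finset.abs_prod]
    refine (Finset.prod_le_prod (fun ε _ => abs_nonneg _) fun ε _ => hval ε).trans (le_of_eq ?_)
    rw [Finset.prod_const, Finset.card_erase_of_mem (Finset.mem_univ _), Finset.card_univ, hM]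
  rw [div_le_iff₀ (by positivity)]
  calc c ≤ ((L * H) ^ M) ^ k * |MvPolynomial.aeval θ (nrm Q)| := key
    _ ≤ ((L * H) ^ M) ^ k * (|MvPolynomial.aeval θ Q| * (Z * H) ^ (M - 1)) :=
      mul_le_mul_of_nonneg_left hsplit (by positivity)
    _ = _ := by
      rw [mul_pow, mul_pow, mul_pow, pow_add, pow_mul]
      ring

end Pool.Agent.Helper21_M
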