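import Pool.Agent.Helper116_EM.PiE
import Pool.Agent.Helper21_M.Sqrt

/-!
# One number against several, multiplicative form (helper21)

The multiplicative form of the results of `Pool.Agent.Helper116_EM.NamesFree`.
-/

set_option autoImplicit false
set_option linter.unusedSectionVars false

open Finset

namespace Pool.Agent.Helper21_M

open Pool.Agent.Helper116_EM
open Pool.Agent.R356 (IsLen det_filt sylv_entry len len_C le_len)

/-- scaling by a nonzero algebraic number -/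
lemma scale_indep {κ : Type*} [Fintype κ] (θ : κ → ℝ) (h : AlgebraicIndependent ℚ θ) (α : ℂ)
    (hα : IsAlgebraic ℚ α) (h0 : α ≠ 0) : AlgebraicIndependent ℚ (fun j => α * (θ j : ℂ)) := by
  refine indepC_of_span (indepC_ofReal h) (fun j => ?_) le_rfl
  set T : Set ℂ := Set.range (fun j => α * (θ j : ℂ)) with hT
  have hα' : α ∈ clC T := by
    show α ∈ MtC.closure _
    rw [mem_clC_iff]
    exact hα.extendScalars (FaithfulSMul.algebraMap_injective ℚ (Algebra.adjoin ℚ T))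
  have h1 : α * (θ j : ℂ) ∈ clC T := subset_clC T ⟨j, rfl⟩
  have h2 := (clC T).div_mem h1 hα'
  rwa [mul_div_cancel_left₀ _ h0] at h2

lemma pdF_CX {ι : Type*} (j : ι) :
    Polynomial.C (MvPolynomial.X j : MvPolynomial ι ℤ) * Polynomial.X ∈ pdF ι 1 := by
  refine ⟨(Polynomial.natDegree_C_mul_le _ _).trans Polynomial.natDegree_X_le, fun i => ?_⟩
  rw [Polynomial.coeff_C_mul_X]
  split_ifs
  · show (MvPolynomial.X j : MvPolynomial ι ℤ).totalDegree ≤ 1
    rw [MvPolynomial.totalDegree_X]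
  · exact zero_mem _

/-- the case of a nonzero constant coefficient -/
theorem free_mul0 {ι : Type} [Fintype ι] (θ : ι → ℝ) (hβ : MeasI θ) (hAI : AlgebraicIndependent ℚ θ) (y : ℝ)
    (D : ℕ) :
    ∃ (κ : ℕ) (c : ℝ), 0 < c ∧ ∀ (P : Polynomial ℤ) (Q : MvPolynomial ι ℤ), P.coeff 0 ≠ 0 → Q ≠ 0 →
      P.natDegree ≤ D → Q.totalDegree ≤ D → ∀ H : ℝ, 1 ≤ H →
      (∀ i, |((P.coeff i : ℤ) : ℝ)| ≤ H) → (∀ s, |((MvPolynomial.coeff s Q : ℤ) : ℝ)| ≤ H) →
      c ≤ H ^ κ * max |Polynomial.aeval y P| |MvPolynomial.aeval (fun j => y * θ j) Q| := by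
  classical
  obtain ⟨k, c, hc, hm⟩ := joint0 hβ y D
  obtain ⟨K, hK⟩ : ∃ K : ℝ, K = ((D : ℝ) + 1) ^ (Fintype.card ι) * 2 ^ D := ⟨_, rfl⟩
  have hD1 : (1 : ℝ) ≤ (D : ℝ) + 1 := by linarith [show (0 : ℝ) ≤ D by positivity]
  have hK1 : 1 ≤ K := by
    rw [hK]
    exact one_le_mul_of_one_le_of_one_le (one_le_pow₀ hD1) (one_le_pow₀ (by norm_num))
  refine ⟨k, c / K ^ k, by positivity, ?_⟩
  intro P Q hP00 hQ hPD hQD H hH hPH hQH
  have hP : P ≠ 0 := by
    intro h
    rw [h] at hP00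
    exact hP00 (Polynomial.coeff_zero 0)
  have hH0 : 0 ≤ H := by linarith
  let v : ι → Polynomial (MvPolynomial ι ℤ) := fun j => Polynomial.C (MvPolynomial.X j) * Polynomial.X
  have hv1 : ∀ j, v j ∈ pdF ι 1 := fun j => pdF_CX j
  have hv2 : ∀ j, len ml (v j) ≤ 2 := by
    intro j
    refine (isLen_ply.mul _ _).trans ?_
    have h1 := ply_C (ι := ι) j
    have h2 := ply_X (ι := ι)
    have h3 := mul_le_one₀ h1 (isLen_ply.nonneg _) h2
    linarith
  obtain ⟨hq1, hq2⟩ := side v hv1 hv2 D Q hQD H hH0 hQH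
  set q := MvPolynomial.aeval v Q with hq
  have hKH : 1 ≤ K * H := one_le_mul_of_one_le_of_one_le hK1 hH
  have hHKH : H ≤ K * H := le_mul_of_one_le_left hH0 hK1
  set p : Polynomial (MvPolynomial ι ℤ) := P.map (Int.castRingHom _) with hp
  have hinj : Function.Injective (Int.castRingHom (MvPolynomial ι ℤ)) := Int.cast_injective
  have hp0 : p ≠ 0 := (Polynomial.map_ne_zero_iff hinj).2 hP
  have hpc : ∀ i, p.coeff i = ((P.coeff i : ℤ) : MvPolynomial ι ℤ) := fun i => by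
    rw [hp, Polynomial.coeff_map]; rfl
  have hp1 : p ∈ pdF ι D := by
    refine ⟨Polynomial.natDegree_map_le.trans hPD, fun i => ?_⟩
    rw [hpc]
    have h1 := zsmul_mem (tdF_mono ι 0 D (Nat.zero_le _) (tdF_one ι)) (P.coeff i)
    rwa [zsmul_one] at h1
  have hp2 : ∀ i, ml (p.coeff i) ≤ H := fun i => by
    rw [hpc]
    exact (ml_int _).trans (hPH i)
  have hpev : p.map (evC θ) = P.map (Int.castRingHom ℂ) := by
    rw [hp, Polynomial.map_map]
    congr 1
    exact RingHom.ext_int _ _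
  have hevv : ∀ α : ℂ, (fun j => ((v j).map (evC θ)).eval α) = fun j => α * (θ j : ℂ) := by
    intro α
    funext j
    show ((Polynomial.C (MvPolynomial.X j) * Polynomial.X).map (evC θ)).eval α = _
    rw [Polynomial.map_mul, Polynomial.eval_mul, Polynomial.map_C, Polynomial.eval_C, evC_apply, MvPolynomial.aeval_X,
      Polynomial.map_X, Polynomial.eval_X, mul_comm]
  have hcop : ∀ α : ℂ, (p.map (evC θ)).eval α = 0 → (q.map (evC θ)).eval α ≠ 0 := by
    intro α hα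
    rw [hpev, Polynomial.eval_map] at hα
    rw [hq, eval_side, hevv α]
    have h2 : IsAlgebraic ℤ α := ⟨P, hP, by
      rw [Polynomial.aeval_def]
      exact hα⟩
    have h3 : IsAlgebraic ℚ α := (IsFractionRing.isAlgebraic_iff ℤ ℚ ℂ).1 h2
    have h0 : α ≠ 0 := by
      intro h
      rw [h, Polynomial.eval₂_at_zero] at hα
      have h5 : ((P.coeff 0 : ℤ) : ℂ) = 0 := hα
      exact hP00 (by exact_mod_cast h5)
    exact aeval_int_ne (scale_indep θ hAI α h3 h0) Q hQ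
  have key := hm p q hp0 hp1 hq1 (K * H) hKH (fun i => (hp2 i).trans hHKH) (fun i => (hq2 i).trans (by rw [hK])) hcop
  have e1 : ‖(p.map (evC θ)).eval (y : ℂ)‖ = |Polynomial.aeval y P| := by
    rw [hpev, Polynomial.eval_map]
    have h4 : Polynomial.eval₂ (Int.castRingHom ℂ) (y : ℂ) P = ((Polynomial.aeval y P : ℝ) : ℂ) := by
      rw [Polynomial.aeval_def, show ((Polynomial.eval₂ (algebraMap ℤ ℝ) y P : ℝ) : ℂ) =
        Complex.ofRealHom (Polynomial.eval₂ (algebraMap ℤ ℝ) y P) from rfl, Polynomial.hom_eval₂]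
      congr 1
    rw [h4, Complex.norm_real, Real.norm_eq_abs]
  have e2 : ‖(q.map (evC θ)).eval (y : ℂ)‖ = |MvPolynomial.aeval (fun j => y * θ j) Q| := by
    rw [hq, eval_side, hevv, ← norm_aeval_ofReal]
    congr 2
    congr 1
    funext j
    push_cast
    rfl
  rw [e1, e2] at key
  rw [div_le_iff₀ (by positivity)]
  calc c ≤ (K * H) ^ k * _ := key
    _ = _ := by rw [mul_pow]; ring

/-- **One number against several, over the rationals, multiplicative form.** -/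
theorem free_mul {ι : Type} [Fintype ι] (θ : ι → ℝ) (hβ : MeasI θ) (hAI : AlgebraicIndependent ℚ θ) (y : ℝ)
    (hy : y ≠ 0) (D : ℕ) :
    ∃ (κ : ℕ) (c : ℝ), 0 < c ∧ ∀ (P : Polynomial ℤ) (Q : MvPolynomial ι ℤ), P ≠ 0 → Q ≠ 0 →
      P.natDegree ≤ D → Q.totalDegree ≤ D → ∀ H : ℝ, 1 ≤ H →
      (∀ i, |((P.coeff i : ℤ) : ℝ)| ≤ H) → (∀ s, |((MvPolynomial.coeff s Q : ℤ) : ℝ)| ≤ H) →
      c ≤ H ^ κ * max |Polynomial.aeval y P| |MvPolynomial.aeval (fun j => y * θ j) Q| := by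
  obtain ⟨k, c, hc, h⟩ := free_mul0 θ hβ hAI y D
  obtain ⟨δ, hδ⟩ : ∃ δ : ℝ, δ = min 1 |y| := ⟨_, rfl⟩
  have hδ0 : 0 < δ := by rw [hδ]; exact lt_min one_pos (abs_pos.2 hy)
  have hδ1 : δ ≤ 1 := by rw [hδ]; exact min_le_left _ _
  have hδy : δ ≤ |y| := by rw [hδ]; exact min_le_right _ _
  refine ⟨k, c * δ ^ D, by positivity, ?_⟩
  intro P Q hP hQ hPD hQD H hH hPH hQH
  obtain ⟨q, hq, hnd⟩ := Polynomial.exists_eq_pow_rootMultiplicity_mul_and_not_dvd P hP 0
  obtain ⟨n, hn⟩ : ∃ n, n = P.rootMultiplicity 0 := ⟨_, rfl⟩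
  rw [← hn, Polynomial.C_0, sub_zero] at hq
  rw [Polynomial.C_0, sub_zero, Polynomial.X_dvd_iff] at hnd
  have hq0 : q ≠ 0 := by
    intro h0
    rw [h0] at hnd
    exact hnd (Polynomial.coeff_zero 0)
  have hdeg : P.natDegree = n + q.natDegree := by
    rw [hq, Polynomial.natDegree_mul (pow_ne_zero _ Polynomial.X_ne_zero) hq0, Polynomial.natDegree_X_pow]
  have hco : ∀ i, q.coeff i = P.coeff (i + n) := by
    intro i
    rw [hq, Polynomial.coeff_X_pow_mul]
  have h1 := h q Q hnd hQ (by omega) hQD H hH (fun i => by rw [hco]; exact hPH _) hQH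
  have h2 : |Polynomial.aeval y P| = |y| ^ n * |Polynomial.aeval y q| := by
    rw [hq, map_mul, map_pow, Polynomial.aeval_X, abs_mul, abs_pow]
  have h3 : δ ^ D ≤ |y| ^ n := by
    calc δ ^ D ≤ δ ^ n := pow_le_pow_of_le_one hδ0.le hδ1 (by omega)
      _ ≤ |y| ^ n := pow_le_pow_left₀ hδ0.le hδy n
  have h4 : δ ^ D ≤ 1 := pow_le_one₀ hδ0.le hδ1
  have h5 : δ ^ D * max |Polynomial.aeval y q| |MvPolynomial.aeval (fun j => y * θ j) Q| ≤
      max |Polynomial.aeval y P| |MvPolynomial.aeval (fun j => y * θ j) Q| := by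
    rw [mul_max_of_nonneg _ _ (by positivity)]
    refine max_le_max ?_ ?_
    · rw [h2]
      exact mul_le_mul_of_nonneg_right h3 (abs_nonneg _)
    · exact mul_le_of_le_one_left (abs_nonneg _) h4
  calc c * δ ^ D ≤ (H ^ k * max |Polynomial.aeval y q| |MvPolynomial.aeval (fun j => y * θ j) Q|) * δ ^ D :=
        mul_le_mul_of_nonneg_right h1 (by positivity)
    _ = H ^ k * (δ ^ D * max |Polynomial.aeval y q| |MvPolynomial.aeval (fun j => y * θ j) Q|) := by ring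
    _ ≤ _ := mul_le_mul_of_nonneg_left h5 (by positivity)

/-- ratios of the factors of names -/
theorem names_indep_mul {A : Type*} (o : A) (c : A → ℝ) (hc0 : ∀ b, c b ≠ 0) (hco : c o = 1)
    (hAI : AlgebraicIndependent ℚ (fun z : {b : A // b ≠ o} => c z)) {m : ℕ}
    (a : Fin (m + 1) → A) (ha : Function.Injective a) :
    AlgebraicIndependent ℚ (fun j : Fin m => c (a j.succ) / c (a 0)) := by
  classical
  set F : Finset A := insert o (Finset.univ.image a) with hF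
  have hoF : o ∈ F := Finset.mem_insert_self _ _
  have haF : ∀ j, a j ∈ F := fun j => Finset.mem_insert_of_mem (Finset.mem_image_of_mem _ (Finset.mem_univ _))
  let y : (F.erase (a 0)) → ℝ := fun b => c b / c (a 0)
  let x : (F.erase o) → ℝ := fun b => c b
  have hx : AlgebraicIndependent ℚ x := by
    let f : (F.erase o) → {b : A // b ≠ o} := fun b => ⟨b.1, (Finset.mem_erase.1 b.2).1⟩
    have hf : Function.Injective f := by
      intro b b' hbb
      exact Subtype.ext (congrArg (fun z : {b : A // b ≠ o} => (z : A)) hbb)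
    exact hAI.comp f hf
  have hy : AlgebraicIndependent ℚ y := by
    refine Pool.Agent.R352.E.indep_of_span hx (fun b => ?_) ?_
    · set T := Set.range y with hT
      have hdiff : ∀ b ∈ F, c b / c (a 0) ∈ Pool.Agent.R352.E.clF T := by
        intro b hb
        by_cases hba : b = a 0
        · rw [hba, div_self (hc0 _)]; exact (Pool.Agent.R352.E.clF T).one_mem
        · exact Pool.Agent.R352.E.subset_clF T ⟨⟨b, Finset.mem_erase.2 ⟨hba, hb⟩⟩, rfl⟩
      have h0 : c (a 0) ∈ Pool.Agent.R352.E.clF T := by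
        have h1 := hdiff o hoF
        rw [hco] at h1
        have h2 := (Pool.Agent.R352.E.clF T).inv_mem h1
        rwa [one_div, inv_inv] at h2
      have h1 := (Pool.Agent.R352.E.clF T).mul_mem (hdiff b.1 (Finset.mem_erase.1 b.2).2) h0
      rw [div_mul_cancel₀ _ (hc0 _)] at h1
      exact h1
    · rw [Fintype.card_coe, Fintype.card_coe, Finset.card_erase_of_mem (haF 0), Finset.card_erase_of_mem hoF]
  let f : Fin m → (F.erase (a 0)) := fun j => ⟨a j.succ, Finset.mem_erase.2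
    ⟨fun h => Fin.succ_ne_zero j (ha h), haF _⟩⟩
  have hf : Function.Injective f := by
    intro i i' h
    simp only [f, Subtype.mk.injEq] at h
    exact Fin.succ_injective _ (ha h)
  exact hy.comp f hf

lemma indep_sq {ι : Type} [Fintype ι] {θ : ι → ℝ} (h : AlgebraicIndependent ℚ θ) :
    AlgebraicIndependent ℚ (fun j => θ j ^ 2) := by
  refine Pool.Agent.R352.E.indep_of_span h (fun j => ?_) le_rfl
  refine Pool.Agent.R352.E.of_pow two_ne_zero ?_
  exact Pool.Agent.R352.E.subset_clF _ ⟨j, rfl⟩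

/-- the numbers `y * c(b)`, one against several -/
theorem names_main_mul {A : Type*} (o : A) (c : A → ℝ) (hc0 : ∀ b, c b ≠ 0) (hco : c o = 1)
    (hAI : AlgebraicIndependent ℚ (fun z : {b : A // b ≠ o} => c z)) (y : ℝ) (hy : y ≠ 0) (J : ℕ) {m : ℕ}
    (a : Fin (m + 1) → A) (ha : Function.Injective a) (S : Finset (ℚ × ℚ))
    (hS : ∀ p ∈ S, 0 ≤ p.1 ∧ p.1 < 1 ∧ 0 < p.2) (N : ℕ) (hN : N ≠ 0)
    (h : ∀ (B : Subalgebra ℤ ℝ) (g : ℝ), g ∈ B → Real.exp 1 * g ∈ B → (∀ p ∈ S, Real.exp (-(p.2 : ℝ)) ∈ B) →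
      (∀ p ∈ S, ∀ l, 1 ≤ l → l ≤ J → Pool.Agent.R352.T.EA p.1 l p.2 ∈ B) → ∀ j, c (a j) ^ 2 * (N * g ^ 2) ∈ B)
    (D : ℕ) :
    ∃ (κ : ℕ) (C : ℝ), 0 < C ∧ ∀ (P : Polynomial ℤ) (Q : MvPolynomial (Fin m) ℤ), P ≠ 0 → Q ≠ 0 →
      P.natDegree ≤ D → Q.totalDegree ≤ D → ∀ H : ℝ, 1 ≤ H →
      (∀ i, |((P.coeff i : ℤ) : ℝ)| ≤ H) → (∀ s, |((MvPolynomial.coeff s Q : ℤ) : ℝ)| ≤ H) →
      C ≤ H ^ κ * max |Polynomial.aeval (y * c (a 0)) P|
        |MvPolynomial.aeval (fun j : Fin m => y * c (a j.succ)) Q| := by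
  have hAI' := names_indep_mul o c hc0 hco hAI a ha
  have hM : MeasI (fun j : Fin m => c (a j.succ) / c (a 0)) := by
    apply MeasI_sqrt
    obtain ⟨ι, β, g, hβ, hg0, hg, heg, hexp, hEA⟩ := tower_points J S hS
    have h1 := h (Rg β) g hg heg hexp hEA
    refine hβ.subst' _ (indep_sq hAI') (c (a 0) ^ 2 * (N * g ^ 2))
      (mul_ne_zero (pow_ne_zero 2 (hc0 _)) (mul_ne_zero (by exact_mod_cast hN) (pow_ne_zero 2 hg0))) (h1 0) (fun j => ?_)
    have h2 : (c (a j.succ) / c (a 0)) ^ 2 * (c (a 0) ^ 2 * (N * g ^ 2)) = c (a j.succ) ^ 2 * (N * g ^ 2) := by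
      rw [div_pow, ← mul_assoc, div_mul_cancel₀ _ (pow_ne_zero 2 (hc0 _))]
    rw [h2]
    exact h1 j.succ
  obtain ⟨κ, C, hC, hm⟩ := free_mul _ hM hAI' (y * c (a 0)) (mul_ne_zero hy (hc0 _)) D
  refine ⟨κ, C, hC, fun P Q hP hQ hPD hQD H hH hPH hQH => ?_⟩
  have h1 := hm P Q hP hQ hPD hQD H hH hPH hQH
  have h2 : (fun j : Fin m => y * c (a 0) * (c (a j.succ) / c (a 0))) = fun j : Fin m => y * c (a j.succ) := by
    funext j
    rw [mul_assoc, mul_div_cancel₀ _ (hc0 _)]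
  rw [h2] at h1
  exact h1

end Pool.Agent.Helper21_M
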